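import Pool.Agent.helper52.T1.SpecS

/-!
# Row t1:LSP: the leaf inequality is submultiplicative along the labels
-/

set_option autoImplicit false

open scoped MatrixGroups ContDiff Topology UpperHalfPlane ComplexConjugate
open UpperHalfPlane MeasureTheory Filter Set

namespace Pool.Agent.T1

open Pool.Agent.RS Pool.Agent.MS Pool.Agent.HV
open Pool.Agent.EN (XG MG mkX mkM fl pr)

theorem LSP_cel (hMON : MON_stmt) {N : ℕ} {C C' J J' : Finset ℕ} {Q : ℝ} (hN : 1 ≤ N) (hC : ∀ c ∈ C, c < N)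
    (hCC : C' ⊆ C) (hJ : J' ⊆ J) (hQ : 0 ≤ Q) (h : LQ (cel N C) J Q) : LQ (cel N C') J' Q := by
  obtain ⟨m1, -, -, -, m5⟩ := hMON
  obtain ⟨a1, a2, a3, -⟩ := m5 N C C' hN hC hCC
  obtain ⟨b1, -⟩ := m5 N C' C' hN (fun c hc => hC c (hCC hc)) Finset.Subset.rfl
  exact m1 (cel N C) (cel N C') J J' Q Q a1 b1 a2 a3 hJ hQ le_rfl h

theorem LSP_lt {W : Set SL(2, ℝ)} {N0 k : ℕ} {p : ℕ → Bool} {h : SL(2, ℝ)} {c : ℕ} (hc : c ∈ YC W N0 k p h) :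
    c < N0 ^ k := by
  simp only [YC, Finset.mem_filter, Finset.mem_range] at hc
  exact hc.1

theorem LSP_lt' {W : Set SL(2, ℝ)} {N0 k : ℕ} {q : ℕ → Bool} {g : SL(2, ℝ)} {j : ℕ} (hj : j ∈ JN W N0 k q g) :
    j < N0 ^ k := by
  simp only [JN, Finset.mem_filter, Finset.mem_range] at hj
  exact hj.1

theorem LSP_proof (hSUB : SUB_stmt) (hMON : MON_stmt) (hYSP : YSP_stmt) (hJSP : JSP_stmt) : LSP_stmt := by
  obtain ⟨C0, hC0, hS⟩ := hSUB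
  refine ⟨C0, hC0, ?_⟩
  intro W N0 k1 k2 p q Q1 Q2 hN hQ1 hQ2 h1 h2 h g
  have hN1 : 1 ≤ N0 ^ k1 := Nat.one_le_pow _ _ hN
  have hN2 : 1 ≤ N0 ^ k2 := Nat.one_le_pow _ _ hN
  have hC : ∀ c ∈ YC W N0 (k1 + k2) p h, c < N0 ^ k1 * N0 ^ k2 := by
    intro c hc
    rw [← pow_add]
    exact LSP_lt hc
  have hJ : ∀ j ∈ JN W N0 (k1 + k2) q g, j < N0 ^ k1 * N0 ^ k2 := by
    intro j hj
    rw [← pow_add]
    exact LSP_lt' hj
  rw [pow_add]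
  refine hS (N0 ^ k1) (N0 ^ k2) _ _ Q1 Q2 hN1 hN2 hC hJ hQ1 hQ2 ?_ ?_
  · intro c1 hc1
    refine LSP_cel hMON hN2 (fun c hc => LSP_lt hc) ?_ ?_ hQ2
      (h2 (h * lM (4 * ((c1 : ℝ) / N0 ^ k1)) * aM (k1 * Real.log N0)) g)
    · intro c hc
      obtain ⟨c', hc', rfl⟩ := Finset.mem_image.1 hc
      obtain ⟨a1, a2⟩ := Finset.mem_filter.1 hc'
      have h3 := (hYSP W N0 k1 k2 p h c' hN a1).2
      rwa [a2] at h3
    · intro j hj
      obtain ⟨j', hj', rfl⟩ := Finset.mem_image.1 hj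
      exact (hJSP W N0 k1 k2 q g j' hN hj').1
  · intro d hd
    refine LSP_cel hMON hN1 (fun c hc => LSP_lt hc) ?_ ?_ hQ1
      (h1 h (g * nM ((d : ℝ) / N0 ^ k2) * aM (-(k2 * Real.log N0))))
    · intro c hc
      obtain ⟨c', hc', rfl⟩ := Finset.mem_image.1 hc
      exact (hYSP W N0 k1 k2 p h c' hN hc').1
    · intro j hj
      obtain ⟨j', hj', rfl⟩ := Finset.mem_image.1 hj
      obtain ⟨a1, a2⟩ := Finset.mem_filter.1 hj'
      have h3 := (hJSP W N0 k1 k2 q g j' hN a1).2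
      rwa [a2] at h3

end Pool.Agent.T1
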