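import Pool.Agent.helper47.T1.SpecE1
import Pool.Agent.helper65.RS.OIB
import Pool.Agent.helper65.RS.BKA
import Pool.Agent.helper65.RS.BKB

/-!
# Row t1:QB1: the boundary integral with an explicit constant (adapted from helper65/RS)
-/

set_option autoImplicit false

open scoped MatrixGroups ContDiff Topology UpperHalfPlane ComplexConjugate
open UpperHalfPlane MeasureTheory Filter Set

namespace Pool.Agent.T1

open Pool.Agent.RS Pool.Agent.MS

theorem QB1_A {C : ℝ → ℝ → ℂ} (hC : CB C) {M : ℝ} (hM : 0 ≤ M) (hM0 : ∀ x τ, ‖C x τ‖ ≤ M)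
    (hM1 : ∀ τ, ContDiff ℝ 1 (fun x => C x τ) ∧ ∀ x, ‖deriv (fun x => C x τ) x‖ ≤ M) {r s t : ℝ} (hr : 1 ≤ r)
    (hs : |s - r| ≤ r / 100) (ht : 4 ≤ |t|) : max r |t| * ‖bI C r s t‖ ≤ 24 * M := by
  have hOIB := OIB
  have ht0 : 0 < |t| := by linarith
  have hr0 : 0 < r := by linarith
  have hs1 : 99 / 100 * r ≤ s := by
    have := (abs_le.mp hs).1
    linarith
  have hs0 : 0 < s := by linarith
  -- the inner integral
  have hsupp : ∀ x τ : ℝ, C x τ ≠ 0 → |x| ≤ 1 / 4 ∧ |τ| ≤ 1 / 4 := hC.2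
  let inn : ℝ → ℂ := fun τ => ∫ x : ℝ, C x τ * Complex.exp ((((r - s) * τ : ℝ) : ℂ) * Complex.I) *
    ((((x - t) ^ 2 + Real.exp (2 * τ) : ℝ)) : ℂ) ^ (-(1 / 2 : ℂ) + (s : ℂ) * Complex.I)
  have hbI : bI C r s t = ∫ τ : ℝ, inn τ := rfl
  have hzero : ∀ τ : ℝ, 1 / 4 < |τ| → inn τ = 0 := by
    intro τ hτ
    have h1 : ∀ x : ℝ, C x τ = 0 := by
      intro x
      by_contra h
      have := (hsupp x τ h).2
      linarith
    simp only [inn, h1, zero_mul, integral_zero]
  have hB1 : ∀ τ, ‖inn τ‖ ≤ (Icc (-(1 / 4)) (1 / 4 : ℝ)).indicator (fun _ => 22 * M / s) τ := by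
    intro τ
    by_cases hτ : τ ∈ Icc (-(1 / 4)) (1 / 4 : ℝ)
    · rw [Set.indicator_of_mem hτ]
      have h1 : inn τ = Complex.exp ((((r - s) * τ : ℝ) : ℂ) * Complex.I) *
          ∫ x in (-(1 / 2) : ℝ)..(1 / 2), C x τ * (Complex.exp (((0 * x : ℝ) : ℂ) * Complex.I) *
      (((x - t) ^ 2 + Real.exp (2 * τ) : ℝ) : ℂ) ^ (-(1 / 2 : ℂ) + (s : ℂ) * Complex.I)) := by
        rw [intervalIntegral.integral_eq_integral_of_support_subset, ← integral_const_mul]
        · apply integral_congr_ae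
          refine Eventually.of_forall fun x => ?_
          simp only [zero_mul, Complex.ofReal_zero, Complex.exp_zero, one_mul]
          ring
        · intro x hx
          have h2 : C x τ ≠ 0 := left_ne_zero_of_mul hx
          have h3 := abs_le.mp (hsupp x τ h2).1
          exact ⟨by linarith [h3.1], by linarith [h3.2]⟩
      rw [h1, norm_mul, Complex.norm_exp_ofReal_mul_I, one_mul]
      exact BKA_inner hOIB hC hM0 hM1 hs0 ht hτ.2
    · rw [Set.indicator_of_notMem hτ, hzero τ, norm_zero]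
      by_contra h
      push Not at h
      exact hτ (abs_le.mp h)
  have hB2 : ∀ τ, ‖inn τ‖ ≤ (Icc (-(1 / 4)) (1 / 4 : ℝ)).indicator (fun _ => M / |t|) τ := by
    intro τ
    by_cases hτ : τ ∈ Icc (-(1 / 4)) (1 / 4 : ℝ)
    · rw [Set.indicator_of_mem hτ]
      have h1 : ∀ x : ℝ, ‖C x τ * Complex.exp ((((r - s) * τ : ℝ) : ℂ) * Complex.I) *
    ((((x - t) ^ 2 + Real.exp (2 * τ) : ℝ)) : ℂ) ^ (-(1 / 2 : ℂ) + (s : ℂ) * Complex.I)‖ ≤
          (Icc (-(1 / 4)) (1 / 4 : ℝ)).indicator (fun _ => 2 * M / |t|) x := by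
        intro x
        by_cases hx : x ∈ Icc (-(1 / 4)) (1 / 4 : ℝ)
        · rw [Set.indicator_of_mem hx, norm_mul, norm_mul, Complex.norm_exp_ofReal_mul_I, mul_one]
          have hDpos : 0 < (x - t) ^ 2 + Real.exp (2 * τ) := by positivity
          rw [Complex.norm_cpow_eq_rpow_re_of_pos hDpos]
          have h2 : (-(1 / 2 : ℂ) + (s : ℂ) * Complex.I).re = -(1 / 2) := by simp
          rw [h2, Real.rpow_neg hDpos.le, ← Real.sqrt_eq_rpow]
          have hx' : |x| ≤ 1 / 4 := abs_le.mpr hx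
          have h3 : |t| / 2 ≤ |x - t| := by
            have h4 : |t| ≤ |x| + |x - t| := by
              calc |t| = |x - (x - t)| := by
                    congr 1
                    ring
                _ ≤ |x| + |x - t| := abs_sub _ _
            linarith
          have h5 : |t| / 2 ≤ √((x - t) ^ 2 + Real.exp (2 * τ)) := by
            apply Real.le_sqrt_of_sq_le
            have h6 : (|t| / 2) ^ 2 ≤ (x - t) ^ 2 := by
              rw [← sq_abs (x - t)]
              exact pow_le_pow_left₀ (by positivity) h3 2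
            have h7 := Real.exp_pos (2 * τ)
            linarith
          have h6 : (√((x - t) ^ 2 + Real.exp (2 * τ)))⁻¹ ≤ (|t| / 2)⁻¹ := inv_anti₀ (by positivity) h5
          calc ‖C x τ‖ * (√((x - t) ^ 2 + Real.exp (2 * τ)))⁻¹ ≤ M * (|t| / 2)⁻¹ :=
                mul_le_mul (hM0 x τ) h6 (by positivity) hM
            _ = 2 * M / |t| := by
                field_simp
        · rw [Set.indicator_of_notMem hx]
          have h2 : C x τ = 0 := by
            by_contra h
            exact hx (abs_le.mp (hsupp x τ h).1)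
          rw [h2, zero_mul, zero_mul, norm_zero]
      have h2 := BKA_out h1
      have h3 : 2 * M / |t| / 2 = M / |t| := by ring
      rw [h3] at h2
      exact h2
    · rw [Set.indicator_of_notMem hτ, hzero τ, norm_zero]
      by_contra h
      push Not at h
      exact hτ (abs_le.mp h)
  have h1 := BKA_out hB1
  have h2 := BKA_out hB2
  rw [← hbI] at h1 h2
  have e1 : r * ‖bI C r s t‖ ≤ 24 * M := by
    have h3 : 22 * M / s / 2 ≤ 12 * M / r := by
      rw [div_div, div_le_div_iff₀ (by positivity) hr0]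
      nlinarith
    have h4 : r * ‖bI C r s t‖ ≤ r * (12 * M / r) := mul_le_mul_of_nonneg_left (h1.trans h3) hr0.le
    have h5 : r * (12 * M / r) = 12 * M := by
      field_simp
    linarith
  have e2 : |t| * ‖bI C r s t‖ ≤ 24 * M := by
    have h4 : |t| * ‖bI C r s t‖ ≤ |t| * (M / |t| / 2) := mul_le_mul_of_nonneg_left h2 ht0.le
    have h5 : |t| * (M / |t| / 2) = M / 2 := by
      field_simp
    linarith
  rcases le_total r |t| with h | h
  · rw [max_eq_right h]
    exact e2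
  · rw [max_eq_left h]
    exact e1

theorem QB1_B {C : ℝ → ℝ → ℂ} (hC : CB C) {M : ℝ} (hM0 : ∀ x τ, ‖C x τ‖ ≤ M)
    (hM2 : ∀ x, ContDiff ℝ 1 (fun τ => C x τ) ∧ ∀ τ, ‖deriv (fun τ => C x τ) τ‖ ≤ M) {r s t : ℝ} (hr : 1 ≤ r)
    (hs : |s - r| ≤ r / 100) (ht : |t| ≤ 4) : r * ‖bI C r s t‖ ≤ 5100 * M := by
  have hOIB := OIB
  have hr0 : 0 < r := by linarith
  let f : ℝ → ℝ → ℂ := fun τ x => C x τ * Complex.exp ((((r - s) * τ : ℝ) : ℂ) * Complex.I) *
    ((((x - t) ^ 2 + Real.exp (2 * τ) : ℝ)) : ℂ) ^ (-(1 / 2 : ℂ) + (s : ℂ) * Complex.I)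
  have hfc : Continuous (Function.uncurry f) := by
    have h1 : Continuous (fun p : ℝ × ℝ => C p.2 p.1) :=
      hC.1.continuous.comp (continuous_snd.prodMk continuous_fst)
    have h2 : Continuous (fun p : ℝ × ℝ => Complex.exp ((((r - s) * p.1 : ℝ) : ℂ) * Complex.I)) := by
      apply Complex.continuous_exp.comp
      fun_prop
    have h3 : Continuous (fun p : ℝ × ℝ =>
        ((((p.2 - t) ^ 2 + Real.exp (2 * p.1)) : ℝ) : ℂ) ^ (-(1 / 2 : ℂ) + (s : ℂ) * Complex.I)) := by
      apply Continuous.cpow _ continuous_const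
      · intro p
        rw [Complex.ofReal_mem_slitPlane]
        positivity
      · fun_prop
    exact (h1.mul h2).mul h3
  have hfs : HasCompactSupport (Function.uncurry f) := by
    apply HasCompactSupport.intro ((isCompact_Icc (a := -(1 / 4 : ℝ)) (b := 1 / 4)).prod
      (isCompact_Icc (a := -(1 / 4 : ℝ)) (b := 1 / 4)))
    rintro ⟨τ, x⟩ hx
    by_contra h
    have h1 : C x τ ≠ 0 := by
      intro h2
      apply h
      simp only [Function.uncurry, f, h2, zero_mul]
    obtain ⟨h2, h3⟩ := hC.2 x τ h1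
    exact hx ⟨abs_le.mp h3, abs_le.mp h2⟩
  have hswap : bI C r s t = ∫ x : ℝ, ∫ τ : ℝ, f τ x := by
    have h1 : bI C r s t = ∫ τ : ℝ, ∫ x : ℝ, f τ x := rfl
    rw [h1]
    exact integral_integral_swap (hfc.integrable_of_hasCompactSupport hfs)
  have hB : ∀ x, ‖∫ τ : ℝ, f τ x‖ ≤ (Icc (-(1 / 4)) (1 / 4 : ℝ)).indicator (fun _ => 10200 * M / r) x := by
    intro x
    by_cases hx : x ∈ Icc (-(1 / 4)) (1 / 4 : ℝ)
    · rw [Set.indicator_of_mem hx]
      have h1 : ∫ τ : ℝ, f τ x = ∫ τ in (-(1 / 2) : ℝ)..(1 / 2), C x τ * (Complex.exp ((((r - s) * τ : ℝ) : ℂ) * Complex.I) *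
      (((x - t) ^ 2 + Real.exp (2 * τ) : ℝ) : ℂ) ^ (-(1 / 2 : ℂ) + (s : ℂ) * Complex.I)) := by
        rw [intervalIntegral.integral_eq_integral_of_support_subset]
        · apply integral_congr_ae
          refine Eventually.of_forall fun τ => ?_
          simp only [f]
          ring
        · intro τ hτ
          have h2 : C x τ ≠ 0 := left_ne_zero_of_mul hτ
          have h3 := abs_le.mp (hC.2 x τ h2).2
          exact ⟨by linarith [h3.1], by linarith [h3.2]⟩
      rw [h1]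
      exact BKB_inner hOIB hC hM0 hM2 hr hs ht (abs_le.mpr hx)
    · rw [Set.indicator_of_notMem hx]
      have h1 : ∀ τ : ℝ, C x τ = 0 := by
        intro τ
        by_contra h
        exact hx (abs_le.mp (hC.2 x τ h).1)
      simp only [f, h1, zero_mul, integral_zero, norm_zero]
      exact le_rfl
  have h1 := BKB_out hB
  rw [← hswap] at h1
  have h4 : r * ‖bI C r s t‖ ≤ r * (10200 * M / r / 2) := mul_le_mul_of_nonneg_left h1 hr0.le
  have h5 : r * (10200 * M / r / 2) = 5100 * M := by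
    field_simp
    ring
  linarith

theorem QB1_proof : QB1_stmt := by
  refine ⟨20400, by norm_num, ?_⟩
  intro C M hC r s t hr hs
  have hM : 0 ≤ M := (norm_nonneg _).trans (hC.b0 0 0)
  have hF1 : ContDiff ℝ 1 (fun p : ℝ × ℝ => C p.1 p.2) := hC.cb.1.of_le (by exact_mod_cast le_top)
  have hx : ∀ τ, ContDiff ℝ 1 (fun x => C x τ) ∧ ∀ x, ‖deriv (fun x => C x τ) x‖ ≤ M := fun τ =>
    ⟨hF1.comp (contDiff_id.prodMk contDiff_const), fun x => hC.bx τ x⟩
  have ht : ∀ x, ContDiff ℝ 1 (fun τ => C x τ) ∧ ∀ τ, ‖deriv (fun τ => C x τ) τ‖ ≤ M := fun x =>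
    ⟨hF1.comp (contDiff_const.prodMk contDiff_id), fun τ => hC.bt x τ⟩
  rcases le_total 4 |t| with h | h
  · have h1 := QB1_A hC.cb hM hC.b0 hx hr hs h
    linarith
  · have h1 := QB1_B hC.cb hC.b0 ht hr hs h
    have h2 : max r |t| ≤ 4 * r := max_le (by linarith) (by linarith)
    have h3 : max r |t| * ‖bI C r s t‖ ≤ 4 * r * ‖bI C r s t‖ :=
      mul_le_mul_of_nonneg_right h2 (norm_nonneg _)
    linarith

end Pool.Agent.T1
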